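import Pool.Agent.Helper74.WB.St

/-! Project WB, module PSH: pushing words. -/

set_option autoImplicit false

namespace Pool.Agent.Helper53.WB

open Pool.Agent.Helper74 Pool.Agent.Helper74.WB

private theorem red_iff {Λ : Type} (l : List (Λ × Bool)) :
    Red l ↔ List.IsChain (fun x y => y ≠ iv x) l := by
  induction l with
  | nil => exact ⟨fun _ => List.isChain_nil, fun _ => trivial⟩
  | cons x l ih =>
    cases l with
    | nil => exact ⟨fun _ => List.isChain_singleton x, fun _ => trivial⟩
    | cons y l =>
      rw [List.isChain_cons_cons, ← ih]
      exact Iff.rfl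

private theorem rd_push {Λ : Type} (l : List (Λ × Bool)) : ∀ σ : List (Λ × Bool), Red l →
    (∀ x ∈ l.head?, ∀ y ∈ σ.head?, y ≠ iv x) → rd l σ = l.reverse ++ σ := by
  induction l with
  | nil => intro σ _ _; rfl
  | cons x l ih =>
    intro σ h1 h2
    rw [rd_cons, ap_push' x σ (h2 x (by simp)), ih (x :: σ) (red_tail _ _ h1)]
    · simp
    · intro z hz y hy
      simp only [List.head?_cons, Option.mem_def, Option.some.injEq] at hy
      subst hy
      cases l with
      | nil => simp at hz
      | cons w l =>
        simp only [List.head?_cons, Option.mem_def, Option.some.injEq] at hz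
        subst hz
        intro h
        exact h1.1 ((iv_eq_iff _ _).1 h.symm)

private theorem red_inv {Λ : Type} (l : List (Λ × Bool)) (h : Red l) : Red (inv l) := by
  rw [red_iff] at h ⊢
  unfold inv
  rw [List.isChain_reverse, List.isChain_map]
  refine h.imp ?_
  intro a b hab h'
  rw [iv_iv] at h'
  exact hab h'.symm

private theorem red_pos {W : Type} (s : List W) (v : List (Lb W × Bool))
    (hv : Red v) (hv' : ∀ y ∈ v.head?, y.2 = true) :
    Red (s.map (fun X => ((.z X, true) : Lb W × Bool)) ++ v) := by
  induction s with
  | nil => exact hv
  | cons X s ih =>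
    rw [List.map_cons, List.cons_append]
    refine red_cons _ _ ih ?_
    intro y hy h
    have h2 : y.2 = true := by
      cases s with
      | nil => exact hv' y hy
      | cons Y s =>
        simp only [List.map_cons, List.cons_append, List.head?_cons, Option.mem_def,
          Option.some.injEq] at hy
        rw [← hy]
    rw [h] at h2
    simp [iv] at h2

private theorem red_tailpart {W : Type} (rk : W → Bool) (g : W × List W) (h : Rc rk g)
    (v : List (Lb W × Bool)) (hv : Red v) (hv' : ∀ y ∈ v.head?, y.2 = true)
    (hv'' : ∀ y ∈ v.head?, y.1 ≠ .z g.1) :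
    Red ((.z g.1, false) :: (g.2.reverse.map (fun X => ((.z X, true) : Lb W × Bool)) ++ v)) := by
  refine red_cons _ _ (red_pos _ _ hv hv') ?_
  intro y hy hyx
  rcases hg : g.2.reverse with _ | ⟨Y, s⟩
  · rw [hg] at hy
    simp only [List.map_nil, List.nil_append] at hy
    refine hv'' y hy ?_
    rw [hyx]
    rfl
  · rw [hg] at hy
    simp only [List.map_cons, List.cons_append, List.head?_cons, Option.mem_def,
      Option.some.injEq] at hy
    have hlast : Y ∈ g.2.getLast? := by
      rw [← List.head?_reverse, hg]
      simp
    obtain ⟨h1, h2⟩ := h Y hlast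
    rw [← hy] at hyx
    have h3 : (Lb.z Y : Lb W) = .z g.1 := congrArg Prod.fst hyx
    injection h3 with h4
    rw [h4] at h2
    rw [h1] at h2
    exact absurd h2 (by simp)

/-- Module PSH. -/
theorem hPSH : StPSH := by
  refine ⟨fun Λ l σ h1 h2 => rd_push l σ h1 h2, fun Λ l h => red_inv l h, ?_, ?_⟩
  · intro W rk g h
    constructor
    · have e : gt g = (.b false, false) :: ((.z g.1, false) ::
          (g.2.reverse.map (fun X => ((.z X, true) : Lb W × Bool)) ++
            [(.b true, true), (.t g, false)])) := by
        simp [gt, gG]
      rw [e]
      refine red_cons _ _ (red_tailpart rk g h _ ?_ ?_ ?_) ?_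
      · refine ⟨?_, trivial⟩
        simp [iv]
      · intro y hy
        simp only [List.head?_cons, Option.mem_def, Option.some.injEq] at hy
        rw [← hy]
      · intro y hy
        simp only [List.head?_cons, Option.mem_def, Option.some.injEq] at hy
        rw [← hy]
        simp
      · intro y hy
        simp only [List.head?_cons, Option.mem_def, Option.some.injEq] at hy
        rw [← hy]
        simp [iv]
    · have e : (gG g).tail = (.z g.1, false) ::
          (g.2.reverse.map (fun X => ((.z X, true) : Lb W × Bool)) ++ [(.b true, true)]) := by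
        simp [gG]
      rw [e]
      refine red_tailpart rk g h _ trivial ?_ ?_
      · intro y hy
        simp only [List.head?_cons, Option.mem_def, Option.some.injEq] at hy
        rw [← hy]
      · intro y hy
        simp only [List.head?_cons, Option.mem_def, Option.some.injEq] at hy
        rw [← hy]
        simp
  · intro W g
    refine ⟨?_, ?_, ?_, ?_⟩
    · simp [gt, gG, cfg, List.map_reverse]
    · simp [gt, gG, inv, iv]
    · have e : inv (gt g) = inv ((.z g.1, false) ::
          (g.2.reverse.map (fun X => ((.z X, true) : Lb W × Bool)) ++
            [(.b true, true), (.t g, false)])) ++ [(.b false, true)] := by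
        simp [gt, gG, inv, iv]
      rw [e, List.getLast?_append]
      simp
    · simp [gG, cfg, List.map_reverse]

end Pool.Agent.Helper53.WB
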